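import Pool.Agent.Helper68.DS.Goals

set_option autoImplicit false

/-!
# NEWOBJ: the limit space of the new object (MP_52cd29_ag)
-/

namespace Pool.Agent.Helper93.DS

open MvPolynomial Pool.Agent.Helper68.DS

/-- The entries of the adjugate of a matrix of linear forms are homogeneous. -/
theorem adjugate_homog {n k : ℕ} (M : Matrix (Fin k) (Fin k) (MvPolynomial (Fin n) ℂ))
    (hM : IsLin M) (a b : Fin k) : (M.adjugate a b).IsHomogeneous (k - 1) := by
  classical
  rw [Matrix.adjugate_apply, Matrix.det_apply]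
  refine IsHomogeneous.sum _ _ _ fun σ _ => ?_
  have key : (∏ i, M.updateRow b (Pi.single a 1) (σ i) i).IsHomogeneous
      (∑ i : Fin k, if σ i = b then 0 else 1) := by
    refine IsHomogeneous.prod _ _ _ fun i _ => ?_
    by_cases h : σ i = b
    · rw [h, Matrix.updateRow_self, if_pos rfl]
      by_cases h2 : i = a
      · subst h2
        rw [Pi.single_eq_same]
        exact isHomogeneous_one _ _
      · rw [Pi.single_eq_of_ne h2]
        exact isHomogeneous_zero _ _ _
    · rw [Matrix.updateRow_ne h, if_neg h]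
      exact hM _ _
  have hs : (∑ i : Fin k, if σ i = b then 0 else 1) = k - 1 := by
    have h1 : ∀ i : Fin k, (if σ i = b then 0 else 1) = if i = σ.symm b then 0 else 1 := by
      intro i
      by_cases h : i = σ.symm b
      · rw [if_pos h, if_pos (by rw [h]; simp)]
      · rw [if_neg h, if_neg (fun h2 => h (by rw [← h2]; simp))]
    rw [Finset.sum_congr rfl fun i _ => h1 i]
    have h2 : (∑ i : Fin k, if i = σ.symm b then 0 else 1) + 1 = k := by
      have h3 : (∑ i : Fin k, if i = σ.symm b then 0 else 1) +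
          (∑ i : Fin k, if i = σ.symm b then 1 else 0) = ∑ i : Fin k, 1 := by
        rw [← Finset.sum_add_distrib]
        refine Finset.sum_congr rfl fun i _ => ?_
        split <;> rfl
      simpa using h3
    omega
  rw [hs] at key
  rcases Int.units_eq_one_or (Equiv.Perm.sign σ) with h | h <;> rw [h]
  · simpa using key
  · simpa using key.neg

/-- The tridiagonal matrix with diagonal `b`, superdiagonal `c u`, subdiagonal `d v`. -/
noncomputable def tri {k : ℕ} (b : Fin k → MvPolynomial (Fin 4) ℂ)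
    (u v : ℕ → MvPolynomial (Fin 4) ℂ) (c d : ℂ) :
    Matrix (Fin k) (Fin k) (MvPolynomial (Fin 4) ℂ) :=
  Matrix.of fun i j : Fin k => if i = j then b i else if (j : ℕ) + 1 = i then d • v j
    else if (i : ℕ) + 1 = j then c • u i else 0

theorem tri_lin {k : ℕ} (b : Fin k → MvPolynomial (Fin 4) ℂ)
    (u v : ℕ → MvPolynomial (Fin 4) ℂ) (hb : ∀ l, (b l).IsHomogeneous 1)
    (hu : ∀ m, (u m).IsHomogeneous 1) (hv : ∀ m, (v m).IsHomogeneous 1) (c d : ℂ) :
    IsLin (tri b u v c d) := by
  intro i j
  simp only [tri, Matrix.of_apply]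
  split
  · exact hb _
  split
  · exact (homogeneousSubmodule (Fin 4) ℂ 1).smul_mem _ (hv _)
  split
  · exact (homogeneousSubmodule (Fin 4) ℂ 1).smul_mem _ (hu _)
  · exact isHomogeneous_zero _ _ _

/-- Conjugation by the diagonal matrix of the powers of `t`. -/
theorem conj_adj {k : ℕ} (b : Fin k → MvPolynomial (Fin 4) ℂ)
    (u v : ℕ → MvPolynomial (Fin 4) ℂ) (c d t : ℂ) (ht : t ≠ 0) (i j : Fin k) :
    t ^ (i : ℕ) • (tri b u v (t * c) d).adjugate i j =
      t ^ (j : ℕ) • (tri b u v c (t * d)).adjugate i j := by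
  classical
  set D : Matrix (Fin k) (Fin k) (MvPolynomial (Fin 4) ℂ) :=
    Matrix.diagonal fun i => C (t ^ (i : ℕ)) with hD
  have h1 : D * tri b u v (t * c) d = tri b u v c (t * d) * D := by
    ext1 i j
    rw [hD, Matrix.diagonal_mul, Matrix.mul_diagonal]
    simp only [tri, Matrix.of_apply]
    by_cases h : i = j
    · subst h
      simp only [if_true]
      ring
    rw [if_neg h, if_neg h]
    by_cases h2 : (j : ℕ) + 1 = i
    · rw [if_pos h2, if_pos h2, ← h2]
      simp only [smul_eq_C_mul, map_mul, map_pow]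
      ring
    rw [if_neg h2, if_neg h2]
    by_cases h3 : (i : ℕ) + 1 = j
    · rw [if_pos h3, if_pos h3, ← h3]
      simp only [smul_eq_C_mul, map_mul, map_pow]
      ring
    rw [if_neg h3, if_neg h3, mul_zero, zero_mul]
  have h2 : (tri b u v (t * c) d).adjugate * D.adjugate =
      D.adjugate * (tri b u v c (t * d)).adjugate := by
    rw [← Matrix.adjugate_mul_distrib, h1, Matrix.adjugate_mul_distrib]
  have h3 : D.det • (D * (tri b u v (t * c) d).adjugate) =
      D.det • ((tri b u v c (t * d)).adjugate * D) := by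
    calc D.det • (D * (tri b u v (t * c) d).adjugate)
        = D * ((tri b u v (t * c) d).adjugate * (D.adjugate * D)) := by
          rw [Matrix.adjugate_mul, Matrix.mul_smul, Matrix.mul_one, Matrix.mul_smul]
      _ = D * (D.adjugate * (tri b u v c (t * d)).adjugate) * D := by
          rw [← Matrix.mul_assoc (tri b u v (t * c) d).adjugate, h2]
          simp only [Matrix.mul_assoc]
      _ = D.det • ((tri b u v c (t * d)).adjugate * D) := by
          rw [← Matrix.mul_assoc D, Matrix.mul_adjugate, Matrix.smul_mul, Matrix.one_mul,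
            Matrix.smul_mul]
  have hdet : D.det ≠ 0 := by
    rw [hD, Matrix.det_diagonal]
    refine Finset.prod_ne_zero_iff.mpr fun i _ => ?_
    rw [Ne, MvPolynomial.C_eq_zero]
    exact pow_ne_zero _ ht
  have h4 := congrFun (congrFun h3 i) j
  simp only [Matrix.smul_apply, smul_eq_mul] at h4
  have h5 := mul_left_cancel₀ hdet h4
  rw [hD, Matrix.diagonal_mul, Matrix.mul_diagonal] at h5
  rw [smul_eq_C_mul, smul_eq_C_mul, h5, mul_comm]

theorem mem_TT {k : ℕ} (M : Matrix (Fin k) (Fin k) (MvPolynomial (Fin 4) ℂ)) (j : Fin 4)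
    (a b : Fin k) : X j * M.adjugate a b ∈ TT M :=
  Submodule.subset_span ⟨(j, a, b), rfl⟩

theorem TT_le {k : ℕ} (hk : 1 ≤ k) (M : Matrix (Fin k) (Fin k) (MvPolynomial (Fin 4) ℂ))
    (hM : IsLin M) : TT M ≤ HS 4 k := by
  refine Submodule.span_le.mpr ?_
  rintro _ ⟨⟨j, a, b⟩, rfl⟩
  have h := (isHomogeneous_X ℂ j).mul (adjugate_homog M hM a b)
  have h2 : 1 + (k - 1) = k := by omega
  rw [h2] at h
  exact h

theorem NEWOBJ (h1 : PM_stmt) (h2 : SC_stmt) (h3 : DIM_stmt) (h4 : BIDI_stmt) : NEWOBJ_stmt := by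
  classical
  intro k s hk b u v hb hu hv hG
  obtain ⟨G, hGl, hGs⟩ := hG
  set H : Submodule ℂ (MvPolynomial (Fin 4) ℂ) := ⨆ i, TT (G i) with hH
  haveI : FiniteDimensional ℂ ↥(HS 4 k) := (h3 3 k).1
  have hHle : H ≤ HS 4 k := iSup_le fun i => TT_le hk (G i) (hGl i)
  haveI hHfd : FiniteDimensional ℂ ↥H := Submodule.finiteDimensional_of_le hHle
  -- the frame
  set F : (Fin 4 × Fin k × Fin k) ⊕ (Fin 4 × Fin k × Fin k) → ℂ → MvPolynomial (Fin 4) ℂ :=
    fun x t => Sum.elim
      (fun p => if p.2.1 ≤ p.2.2 then X p.1 * (tri b u v (t * t) 1).adjugate p.2.2 p.2.1 else 0)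
      (fun p => if p.2.1 ≤ p.2.2 then X p.1 * (tri b u v 1 (t * t)).adjugate p.2.1 p.2.2 else 0)
      x with hF
  have hpe : ∀ (w : MvPolynomial (Fin 4) ℂ), IsPolyMap fun t : ℂ => (t * t) • w := by
    intro w
    have := h1.tsmul _ _ (h1.tsmul _ _ (h1.const (MvPolynomial (Fin 4) ℂ) w))
    simpa only [smul_smul] using this
  have hpA : ∀ a c : Fin k, IsPolyMap fun t : ℂ => (tri b u v (t * t) 1).adjugate a c := by
    refine h1.adj (Fin k) _ _ ?_
    intro a c
    simp only [tri, Matrix.of_apply]
    by_cases e1 : a = c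
    · simp only [if_pos e1]; exact h1.const _ _
    simp only [if_neg e1]
    by_cases e2 : (c : ℕ) + 1 = a
    · simp only [if_pos e2]; exact h1.const _ _
    simp only [if_neg e2]
    by_cases e3 : (a : ℕ) + 1 = c
    · simp only [if_pos e3]; exact hpe _
    simp only [if_neg e3]
    exact h1.const _ _
  have hpB : ∀ a c : Fin k, IsPolyMap fun t : ℂ => (tri b u v 1 (t * t)).adjugate a c := by
    refine h1.adj (Fin k) _ _ ?_
    intro a c
    simp only [tri, Matrix.of_apply]
    by_cases e1 : a = c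
    · simp only [if_pos e1]; exact h1.const _ _
    simp only [if_neg e1]
    by_cases e2 : (c : ℕ) + 1 = a
    · simp only [if_pos e2]; exact hpe _
    simp only [if_neg e2]
    by_cases e3 : (a : ℕ) + 1 = c
    · simp only [if_pos e3]; exact h1.const _ _
    simp only [if_neg e3]
    exact h1.const _ _
  have hFp : ∀ a, IsPolyMap (F a) := by
    rintro (⟨j, a, c⟩ | ⟨j, a, c⟩)
    · by_cases hac : a ≤ c
      · simp only [hF, Sum.elim_inl, if_pos hac]
        exact h1.mul _ _ _ (h1.const _ _) (hpA c a)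
      · simp only [hF, Sum.elim_inl, if_neg hac]
        exact h1.const _ _
    · by_cases hac : a ≤ c
      · simp only [hF, Sum.elim_inr, if_pos hac]
        exact h1.mul _ _ _ (h1.const _ _) (hpB a c)
      · simp only [hF, Sum.elim_inr, if_neg hac]
        exact h1.const _ _
  -- the limit
  have hA0 : tri b u v (0 * 0) 1 = Matrix.of fun i j : Fin k =>
      if i = j then b i else if (j : ℕ) + 1 = i then v j else 0 := by
    ext1 i j
    simp only [tri, Matrix.of_apply, mul_zero, zero_smul, one_smul, ite_self]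
  have hB0 : tri b u v 1 (0 * 0) = (Matrix.of fun i j : Fin k =>
      if i = j then b i else if (j : ℕ) + 1 = i then u j else 0).transpose := by
    ext1 i j
    simp only [tri, Matrix.of_apply, mul_zero, zero_smul, one_smul, Matrix.transpose_apply]
    by_cases e1 : i = j
    · subst e1; simp only [if_true]
    · rw [if_neg e1, if_neg (Ne.symm e1)]
      by_cases e2 : (j : ℕ) + 1 = i
      · rw [if_pos e2, if_neg (by omega)]
      · rw [if_neg e2]
  have hE0 : E0 b u v ≤ Submodule.span ℂ (Set.range fun a => F a 0) := by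
    refine Submodule.span_le.mpr ?_
    rintro f ⟨j, a, c, hac, hf | hf⟩
    · have e1 : F (Sum.inr (j, a, c)) 0 = (-1) ^ ((c : ℕ) - a) * f := by
        simp only [hF, Sum.elim_inr, if_pos hac]
        rw [hB0, ← Matrix.adjugate_transpose, Matrix.transpose_apply, h4 _ k b u c a hac, hf, Pw]
        ring
      have e2 : f = ((-1 : ℂ) ^ ((c : ℕ) - a)) • F (Sum.inr (j, a, c)) 0 := by
        rw [e1, smul_eq_C_mul, ← mul_assoc]
        have : (C ((-1 : ℂ) ^ ((c : ℕ) - a)) : MvPolynomial (Fin 4) ℂ) * (-1) ^ ((c : ℕ) - a) = 1 := by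
          rw [map_pow, map_neg, map_one, ← mul_pow]
          simp
        rw [this, one_mul]
      rw [e2]
      exact Submodule.smul_mem _ _ (Submodule.subset_span ⟨_, rfl⟩)
    · have e1 : F (Sum.inl (j, a, c)) 0 = (-1) ^ ((c : ℕ) - a) * f := by
        simp only [hF, Sum.elim_inl, if_pos hac]
        rw [hA0, h4 _ k b v c a hac, hf, Pw]
        ring
      have e2 : f = ((-1 : ℂ) ^ ((c : ℕ) - a)) • F (Sum.inl (j, a, c)) 0 := by
        rw [e1, smul_eq_C_mul, ← mul_assoc]
        have : (C ((-1 : ℂ) ^ ((c : ℕ) - a)) : MvPolynomial (Fin 4) ℂ) * (-1) ^ ((c : ℕ) - a) = 1 := by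
          rw [map_pow, map_neg, map_one, ← mul_pow]
          simp
        rw [this, one_mul]
      rw [e2]
      exact Submodule.smul_mem _ _ (Submodule.subset_span ⟨_, rfl⟩)
  have hle0 : HS 4 k ≤ H ⊔ Submodule.span ℂ (Set.range fun a => F a 0) :=
    hGs.trans (sup_le_sup le_rfl hE0)
  -- a good parameter
  have hfin := h2 _ H _ F hFp 0
  obtain ⟨t, ht⟩ : ∃ t : ℂ, t ∉ {t : ℂ | Module.finrank ℂ ↥(H ⊔ Submodule.span ℂ
      (Set.range fun a => F a t)) < Module.finrank ℂ ↥(H ⊔ Submodule.span ℂ
      (Set.range fun a => F a 0))} ∪ {0} := by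
    exact (Set.Infinite.exists_notMem_finite (Set.infinite_univ (α := ℂ))
      (hfin.union (Set.finite_singleton 0))).imp fun t h => h.2
  rw [Set.mem_union, not_or, Set.mem_setOf_eq, not_lt, Set.mem_singleton_iff] at ht
  obtain ⟨ht1, ht0⟩ := ht
  have hsub : ∀ t, Submodule.span ℂ (Set.range fun a => F a t) ≤ HS 4 k := by
    intro t
    refine Submodule.span_le.mpr ?_
    rintro _ ⟨(⟨j, a, c⟩ | ⟨j, a, c⟩), rfl⟩
    · by_cases hac : a ≤ c
      · simp only [hF, Sum.elim_inl, if_pos hac]
        exact TT_le hk _ (tri_lin b u v hb hu hv _ _) (mem_TT _ j c a)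
      · simp only [hF, Sum.elim_inl, if_neg hac]
        exact Submodule.zero_mem _
    · by_cases hac : a ≤ c
      · simp only [hF, Sum.elim_inr, if_pos hac]
        exact TT_le hk _ (tri_lin b u v hb hu hv _ _) (mem_TT _ j a c)
      · simp only [hF, Sum.elim_inr, if_neg hac]
        exact Submodule.zero_mem _
  have hfull : H ⊔ Submodule.span ℂ (Set.range fun a => F a t) = HS 4 k := by
    refine Submodule.eq_of_le_of_finrank_le (sup_le hHle (hsub t)) ?_
    refine le_trans ?_ ht1
    haveI : FiniteDimensional ℂ ↥(H ⊔ Submodule.span ℂ (Set.range fun a => F a 0)) :=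
      Submodule.finiteDimensional_of_le (sup_le hHle (hsub 0))
    exact Submodule.finrank_mono hle0
  have hTT : Submodule.span ℂ (Set.range fun a => F a t) ≤ TT (tri b u v t t) := by
    refine Submodule.span_le.mpr ?_
    have hc1 : ∀ a c : Fin k, (tri b u v (t * t) 1).adjugate a c =
        ((t ^ (a : ℕ))⁻¹ * t ^ (c : ℕ)) • (tri b u v t t).adjugate a c := by
      intro a c
      have := conj_adj b u v t 1 t ht0 a c
      rw [mul_one] at this
      rw [mul_smul, ← this, smul_smul, inv_mul_cancel₀ (pow_ne_zero _ ht0), one_smul]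
    have hc2 : ∀ a c : Fin k, (tri b u v 1 (t * t)).adjugate a c =
        ((t ^ (c : ℕ))⁻¹ * t ^ (a : ℕ)) • (tri b u v t t).adjugate a c := by
      intro a c
      have := conj_adj b u v 1 t t ht0 a c
      rw [mul_one] at this
      rw [mul_smul, this, smul_smul, inv_mul_cancel₀ (pow_ne_zero _ ht0), one_smul]
    rintro _ ⟨(⟨j, a, c⟩ | ⟨j, a, c⟩), rfl⟩
    · by_cases hac : a ≤ c
      · simp only [hF, Sum.elim_inl, if_pos hac]
        rw [hc1, mul_smul_comm]
        exact Submodule.smul_mem _ _ (mem_TT _ _ _ _)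
      · simp only [hF, Sum.elim_inl, if_neg hac]
        exact Submodule.zero_mem _
    · by_cases hac : a ≤ c
      · simp only [hF, Sum.elim_inr, if_pos hac]
        rw [hc2, mul_smul_comm]
        exact Submodule.smul_mem _ _ (mem_TT _ _ _ _)
      · simp only [hF, Sum.elim_inr, if_neg hac]
        exact Submodule.zero_mem _
  refine ⟨Fin.cons (tri b u v t t) G, ?_, ?_⟩
  · intro i
    refine Fin.cases ?_ (fun i => ?_) i
    · exact tri_lin b u v hb hu hv t t
    · exact hGl i
  · rw [← hfull]
    refine sup_le ?_ (hTT.trans ?_)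
    · rw [hH]
      exact iSup_le fun i => le_iSup (fun i : Fin (s + 1) => TT
        ((Fin.cons (tri b u v t t) G : Fin (s + 1) → _) i)) i.succ
    · exact le_iSup (fun i : Fin (s + 1) => TT
        ((Fin.cons (tri b u v t t) G : Fin (s + 1) → _) i)) 0

end Pool.Agent.Helper93.DS
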